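import Mathlib

set_option autoImplicit false

namespace Pool.Agent.Results.MP_174f4a_gt.Counter

open Set Filter Topology Function

universe u

lemma core {X : Type} [LinearOrder X] [Uncountable X] (hX : ∀ a : X, (Iio a).Countable)
    {H : Type u} [Group H] [TopologicalSpace H] [IsTopologicalGroup H] (φ : (X → ℝ) → H)
    (hφ : ∀ f g, φ (f + g) = φ f * φ g) (hs : SeqContinuous φ) : Continuous φ := by
  classical
  have h0 : φ 0 = 1 := by simpa using hφ 0 0
  refine continuous_of_continuousAt_one
    (MonoidHom.mk' (M := Multiplicative (X → ℝ)) φ hφ) fun U hU => ?_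
  have st (W : Set H) : ∃ V : Set H, W ∈ 𝓝 1 → V ∈ 𝓝 1 ∧ IsClosed V ∧
      ∀ a ∈ V, ∀ b ∈ V, a * b ∈ W := by
    by_cases hW : W ∈ 𝓝 1
    · obtain ⟨V, h1, h2⟩ := exists_nhds_one_split hW
      obtain ⟨V', h3, h4, h5⟩ := exists_mem_nhds_isClosed_subset h1
      exact ⟨V', fun _ => ⟨h3, h4, fun a ha b hb => h2 a (h5 ha) b (h5 hb)⟩⟩
    · exact ⟨W, fun h => absurd h hW⟩
  choose nx hnx using st
  let W : ℕ → Set H := fun n => nx^[n] U
  have WS (n) : W (n + 1) = nx (W n) := iterate_succ_apply' ..
  have W1 (n) : W n ∈ 𝓝 1 := by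
    induction n with
    | zero => exact h0 ▸ hU
    | succ n ih => exact WS n ▸ (hnx _ ih).1
  let null : Set X → Prop := fun A => ∀ y, support y ⊆ A → ∀ n, φ y ∈ W (n + 1)
  have n0 : null ∅ := fun y hy n => by
    rw [subset_empty_iff, support_eq_empty_iff] at hy
    rw [hy, h0]
    exact mem_of_mem_nhds (W1 _)
  have n1 (A B) (hA : null A) (h : B ⊆ A) : null B := fun y hy => hA y (hy.trans h)
  have n2 (A B) (hA : null A) (hB : null B) : null (A ∪ B) := fun y hy n => by
    rw [← indicator_self_add_compl A y, hφ]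
    refine (hnx _ (W1 (n + 1))).2.2 _ (WS _ ▸ hA _ (by simp) _) _ (WS _ ▸ hB _ ?_ _)
    intro i hi
    simp only [support_indicator, mem_inter_iff, mem_compl_iff] at hi
    exact (hy hi.2).resolve_left hi.1
  have n3 (A : ℕ → Set X) (hA : ∀ k, null (A k)) : null (⋃ k, A k) := fun y hy n => by
    have h1 (k) : null (accumulate A k) := by
      induction k with
      | zero => simpa using hA 0
      | succ k ih => rw [accumulate_succ]; exact n2 _ _ ih (hA _)
    refine (WS n ▸ (hnx _ (W1 n)).2.1).mem_of_tendsto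
      (hs (x := fun k => indicator (accumulate A k) y) (tendsto_pi_nhds.2 fun i => ?_))
      (Eventually.of_forall fun k => h1 k _ (by simp) n)
    by_cases hi : y i = 0
    · simp [indicator_apply, hi]
    · obtain ⟨k, hk⟩ := mem_iUnion.1 (hy hi)
      exact tendsto_const_nhds.congr' ((eventually_ge_atTop k).mono fun l hl =>
        (indicator_of_mem (mem_accumulate.2 ⟨k, hl, hk⟩) _).symm)
  have n4 (A : X → Set X) (hA : Pairwise (Disjoint on A)) : {a | ¬ null (A a)}.Countable := by
    refine (countable_iUnion fun n => Finite.countable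
      (s := {a | ∃ y, support y ⊆ A a ∧ φ y ∉ W (n + 1)}) ?_).mono fun a ha => ?_
    · by_contra h
      let w := Set.Infinite.natEmbedding _ h
      choose y h1 h2 using fun k => (w k).2
      have : Tendsto y atTop (𝓝 0) := tendsto_pi_nhds.2 fun i => by
        by_cases hi : ∃ k, y k i ≠ 0
        · obtain ⟨k, hk⟩ := hi
          refine tendsto_const_nhds.congr' ((eventually_gt_atTop k).mono fun l hl => ?_)
          by_contra hn
          exact disjoint_left.1 (hA fun e => hl.ne (w.injective (Subtype.ext e))) (h1 k hk)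
            (h1 l (Ne.symm hn))
        · push Not at hi
          simp [hi]
      obtain ⟨k, hk⟩ := ((hs this).eventually (h0 ▸ W1 (n + 1))).exists
      exact h2 k hk
    · simp only [null, mem_ofPred_eq] at ha
      push Not at ha
      obtain ⟨y, h1, n, h2⟩ := ha
      exact mem_iUnion.2 ⟨n, y, h1, h2⟩
  set C := {a : X | ¬ null {a}}
  have hC : C.Countable := n4 (fun a => {a}) fun a b h => disjoint_singleton.2 h
  have n5 : null Cᶜ := by
    by_contra hn
    choose f hf using fun a => countable_iff_exists_injOn.1 (hX a)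
    refine not_countable_univ ((countable_iUnion fun k => n4 (fun a => {b | a < b ∧ f b a = k})
      fun a b h => disjoint_left.2 fun c h1 h2 => h (hf c h1.1 h2.1 (h1.2.trans h2.2.symm))).mono
      fun a _ => ?_)
    by_contra ha
    simp only [mem_iUnion, mem_ofPred_eq, not_exists, not_not] at ha
    have h1 : null (Iic a \ C) := by
      rcases (Iic a \ C).eq_empty_or_nonempty with e | e
      · exact e ▸ n0
      · obtain ⟨s, hs⟩ := (((Iio_insert (a := a)) ▸ (hX a).insert a).mono
          (diff_subset (t := C))).exists_eq_range e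
        rw [hs, ← iUnion_singleton_eq_range]
        exact n3 _ fun k => not_not.1 (hs ▸ mem_range_self k : s k ∈ Iic a \ C).2
    refine hn (n1 _ _ (n2 _ _ h1 (n3 _ ha)) fun b hb => ?_)
    rcases le_or_gt b a with h | h
    · exact Or.inl ⟨h, hb⟩
    · exact Or.inr (mem_iUnion.2 ⟨_, h, rfl⟩)
  haveI : Countable C := hC
  let ρ : (C → ℝ) → X → ℝ := fun z i => if h : i ∈ C then z ⟨i, h⟩ else 0
  have ρc : Continuous ρ := continuous_pi fun i => by
    by_cases h : i ∈ C <;> simp only [ρ, h, dite_true, dite_false] <;> fun_prop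
  have c1 : Continuous fun x : X → ℝ => φ (indicator C x) :=
    (SeqContinuous.continuous (f := φ ∘ ρ) fun x p hp => hs ((ρc.tendsto p).comp hp)).comp
      (f := fun (x : X → ℝ) (i : C) => x i) (by fun_prop) |>.congr fun x => by
        simp only [comp_apply]
        congr 1
        ext i
        by_cases h : i ∈ C <;> simp [ρ, h]
  have c2 := (c1.tendsto 0).eventually (by simpa [h0] using W1 1 : W 1 ∈ _)
  refine mem_map.2 (mem_of_superset c2 fun x hx => ?_)
  change φ x ∈ W 0
  rw [← indicator_self_add_compl C x, hφ]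
  exact (hnx _ (W1 0)).2.2 _ hx _ (n5 _ (by simp) 0)

lemma notFU {X : Type} [Uncountable X] : ¬ FrechetUrysohnSpace (X → ℝ) := by
  classical
  intro h
  have : (0 : X → ℝ) ∈ closure {x | {i | x i ≠ 1}.Finite} := by
    refine mem_closure_iff_nhds.2 fun U hU => ?_
    rw [nhds_pi, Filter.mem_pi] at hU
    obtain ⟨I, hI, t, ht, hU⟩ := hU
    refine ⟨indicator Iᶜ 1, hU fun i hi => ?_, hI.subset fun i hi => ?_⟩
    · simpa [hi] using mem_of_mem_nhds (ht i)
    · by_contra hn
      simp [hn] at hi
  obtain ⟨x, h1, h2⟩ := mem_closure_iff_seq_limit.1 this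
  refine not_countable_univ ((countable_iUnion fun k => (h1 k).countable).mono fun i _ => ?_)
  by_contra hi
  simp only [mem_iUnion, mem_ofPred_eq, not_exists, not_not] at hi
  have := tendsto_pi_nhds.1 h2 i
  simp [hi] at this

theorem result : ∃ (X : Type) (_ : TopologicalSpace X), DiscreteTopology X ∧
    ∀ τ : TopologicalSpace C(X, ℝ),
      (τ = ContinuousMap.compactOpen ∨
        τ = TopologicalSpace.induced (fun f : C(X, ℝ) => (f : X → ℝ)) Pi.topologicalSpace) →
      (∀ (H : Type u) [Group H] [TopologicalSpace H] [IsTopologicalGroup H] [T2Space H]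
        (φ : C(X, ℝ) → H), (∀ f g, φ (f + g) = φ f * φ g) →
          @SeqContinuous _ _ τ _ φ → @Continuous _ _ τ _ φ) ∧
      ¬ @FrechetUrysohnSpace C(X, ℝ) τ := by
  obtain ⟨_, _, h1⟩ := Cardinal.exists_ord_eq_type_lt (Cardinal.aleph 1).out
  letI : TopologicalSpace (Cardinal.aleph 1).out := ⊥
  haveI : DiscreteTopology (Cardinal.aleph 1).out := ⟨rfl⟩
  haveI : Uncountable (Cardinal.aleph 1).out := Cardinal.aleph1_le_mk_iff.1 (by simp)
  have e0 := (ContinuousMap.isHomeomorph_coe (X := (Cardinal.aleph 1).out)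
    (Y := ℝ)).isInducing.eq_induced.symm
  refine ⟨(Cardinal.aleph 1).out, inferInstance, inferInstance, fun τ hτ => ?_⟩
  obtain rfl : τ = ContinuousMap.compactOpen := hτ.elim id fun h => h.trans e0
  let e := ContinuousMap.homeoFnOfDiscrete (X := (Cardinal.aleph 1).out) (Y := ℝ)
  refine ⟨fun H _ _ _ _ φ hφ hs => ?_, fun h => notFU e.symm.isInducing.frechetUrysohnSpace⟩
  have := core (fun a => (Cardinal.countable_iff_lt_aleph_one _).2
    ((Cardinal.mk_Iio_lt a h1).trans_eq (by simp))) (φ ∘ e.symm) (fun f g => hφ (e.symm f) (e.symm g))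
    fun x p hp => hs ((e.symm.continuous.tendsto p).comp hp)
  exact (this.comp e.continuous).congr fun f => by simp

end Pool.Agent.Results.MP_174f4a_gt.Counter
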